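import Pool.Agent.Helper183_Collar.Final

set_option autoImplicit false

namespace Pool.Agent.Results.MP_fb372b_co.CollarUnknotted

open Pool.Agent.Helper183.Collar

/-- Let `F` be the facet family of a convex three-dimensional polytope with vertices `x v`, and
let `a`, `b` number the corners of two triangular facets without common vertex, in opposite senses
as seen from outside (this makes the surface below orientable). For every `n ≥ 6`, remove the two
facets and glue in a tube of `3 (n + 1)` quadrilaterals joining corner `k` of `b` with corner `k`
of `a`. The resulting map on the torus has an unknotted realization. -/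
theorem result {V : Type*} [Fintype V] [DecidableEq V] (x : V → E3) (F : Finset (Finset V))
    (hP : IsPolytope x F) (a b : Fin 3 → V) (ainj : Function.Injective a)
    (binj : Function.Injective b) (hab : ∀ i j, a i ≠ b j)
    (hA : Finset.univ.image a ∈ F) (hB : Finset.univ.image b ∈ F)
    (hor : signedVol (x (a 0)) (x (a 1)) (x (a 2)) (x (b 0)) *
      signedVol (x (b 0)) (x (b 1)) (x (b 2)) (x (a 0)) < 0)
    (n : ℕ) (hn : 6 ≤ n) :
    ∃ y : V ⊕ (Fin n × Fin 3) → E3,
      Realizes (collar F a b n) y ∧ Unknotted (surf (collar F a b n) y) :=
  collar_theorem hP ainj binj hab hA hB hor hn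

end Pool.Agent.Results.MP_fb372b_co.CollarUnknotted
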